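import Pool.Agent.TH754.DG.Final
import Pool.Agent.W614.Dg.Trans

/-!
Infinite words generated by iterating dgsm's with growth `O(n s(n))` are, up to erasing letters,
the infinite words generated by machines working simultaneously in polynomial time and in space
`O(s(n))`.
-/

set_option autoImplicit false

namespace Pool.Agent.Results.MP_5d512e_lc.GrowthVersusSpace

open Pool.Agent.H584R2.Dg Pool.Agent.W614.Dg Pool.Agent.TH754.DG

/-- `s(m) = O(s(n))` for `m` polynomially bounded in `n`. The functions `(log n + 1) ^ j` have this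
property. -/
def PolyInv (s : ℕ → ℝ) : Prop :=
  ∀ B d : ℕ, ∃ C : ℝ, ∀ n m : ℕ, 1 ≤ n → m ≤ B * n ^ d → s m ≤ C * s n

/-- One machine generates `w` in polynomial time and in space `O(s(n))`, simultaneously. -/
def PolyTimeSpace {S : Type} (s : ℕ → ℝ) (w : ℕ → S) : Prop :=
  ∃ (k : ℕ) (M : Machine k S) (C : ℝ) (d : ℕ), M.Generates w ∧
    ∀ n : ℕ, 1 ≤ n → (M.T n : ℝ) ≤ C * (n : ℝ) ^ d ∧ M.SpaceLE n (C * s n)

/-- The growth `|τ^n(a)|` is `O(n s(n))`. -/
def GrowthO {S : Type} (s : ℕ → ℝ) (τ : Dgsm S) (a : S) : Prop :=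
  ∃ A : ℝ, ∀ n : ℕ, 1 ≤ n → ((τ.map^[n] [a]).length : ℝ) ≤ A * (n * s n)

theorem growth_to_machine {s : ℕ → ℝ} (hs1 : ∀ n, 1 ≤ s n) (hs : PolyInv s) {S : Type} [Finite S]
    {τ : Dgsm S} {a : S} {w : ℕ → S} (hne : τ.NonErasing) (hw : τ.IsLimit a w)
    (hg : GrowthO s τ a) : PolyTimeSpace s w := by
  obtain ⟨M, K, hK, hM, hT, hS⟩ := toMachine hne hw
  obtain ⟨A, hA⟩ := hg
  obtain ⟨C', hC'⟩ := hs 2 1
  have h1 := hS (fun m => A * s m) (by
    intro n hn
    have := hA n hn
    calc ((τ.map^[n] [a]).length : ℝ) ≤ A * (n * s n) := this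
      _ = n * (A * s n) := by ring)
  have h2 : ∀ n, 1 ≤ n → M.SpaceLE n (2 * K * (|A| * (|C'| * s n))) := by
    intro n hn
    apply h1 n hn
    intro m hm hm2
    have h3 := hC' n m hn (by simpa using hm2)
    have h4 := hs1 n
    have h5 := hs1 m
    calc A * s m ≤ |A| * s m := mul_le_mul_of_nonneg_right (le_abs_self A) (by linarith)
      _ ≤ |A| * (|C'| * s n) := by
        apply mul_le_mul_of_nonneg_left _ (abs_nonneg A)
        exact h3.trans (mul_le_mul_of_nonneg_right (le_abs_self C') (by linarith))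
  refine ⟨3, M, K + 2 * K * (|A| * |C'|), 2, hM, ?_⟩
  intro n hn
  have h4 := hs1 n
  have hn' : (1 : ℝ) ≤ n := by exact_mod_cast hn
  have h5 : 0 ≤ K * (|A| * |C'|) := by positivity
  refine ⟨?_, ?_⟩
  · refine (hT n hn).trans ?_
    apply mul_le_mul_of_nonneg_right _ (by positivity)
    linarith
  · refine spaceLE_mono ?_ (h2 n hn)
    have h6 : 0 ≤ K * s n := by positivity
    calc 2 * K * (|A| * (|C'| * s n)) = 2 * K * (|A| * |C'|) * s n := by ring
      _ ≤ K * s n + 2 * K * (|A| * |C'|) * s n := by linarith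
      _ = _ := by ring

theorem machine_to_growth {s : ℕ → ℝ} (hs1 : ∀ n, 1 ≤ s n) (hs : PolyInv s) {S : Type} [Finite S]
    {w : ℕ → S} (hw : PolyTimeSpace s w) :
    ∃ (S' : Type) (_ : Finite S') (τ' : Dgsm S') (a' : S') (w' : ℕ → S') (h : S' → Option S)
      (B e : ℕ), Nat.card τ'.Q = 2 ∧ τ'.NonErasing ∧ τ'.IsLimit a' w' ∧ GrowthO s τ' a' ∧
      Er h w' w B e := by
  obtain ⟨k, M, C, d, hM, hC⟩ := hw
  obtain ⟨S', hS', τ', a', w', h, B, e, h1, h2, h3, h4, h5⟩ :=
    toDgsm hM (σ := fun n => |C| * s n)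
      (fun n => mul_nonneg (abs_nonneg C) (by have := hs1 n; linarith))
      (fun n hn => spaceLE_mono
        (mul_le_mul_of_nonneg_right (le_abs_self C) (by have := hs1 n; linarith)) (hC n hn).2)
      (fun n hn => (hC n hn).1)
  obtain ⟨C', hC'⟩ := hs 2 1
  refine ⟨S', hS', τ', a', w', h, B, e, h1, h2, h3, ⟨3 + |C| * |C'|, ?_⟩, h5⟩
  intro n hn
  have h6 := hC' n (n + 1) hn (by rw [pow_one]; omega)
  have h7 := hs1 n
  have hn' : (1 : ℝ) ≤ n := by exact_mod_cast hn
  have h8 : |C| * s (n + 1) ≤ |C| * (|C'| * s n) := by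
    apply mul_le_mul_of_nonneg_left _ (abs_nonneg C)
    exact h6.trans (mul_le_mul_of_nonneg_right (le_abs_self C') (by linarith))
  have h9 : (n : ℝ) * (|C| * s (n + 1)) ≤ n * (|C| * (|C'| * s n)) :=
    mul_le_mul_of_nonneg_left h8 (by linarith)
  have h10 : (n : ℝ) ≤ n * s n := by nlinarith
  calc ((τ'.map^[n] [a']).length : ℝ) ≤ 1 + n * (|C| * s (n + 1) + 2) := h4 n
    _ = 1 + 2 * n + n * (|C| * s (n + 1)) := by ring
    _ ≤ 3 * (n * s n) + n * (|C| * (|C'| * s n)) := by linarith
    _ = _ := by ring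

/-- **(1)** Every infinite word `w` generated by iterating a non-erasing dgsm is generated by one
machine with three working tapes in time `K n²` which works in space `K σ(2n)` for every
nondecreasing `σ` such that the growth is at most `n σ(n)`.

**(2)** Conversely, if a machine generates `w` in time `C n^d` and space `σ(n)`, then there is a
non-erasing dgsm with two states and growth at most `1 + n (σ(n+1) + 2)` generating a word `w'`
from which `w` is obtained by applying a partial letter map, erasing the letters where it is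
undefined; the first `n` letters of `w` come from the first `B n^e` letters of `w'`.

**(3)** Let `s ≥ 1` be invariant, up to constant factors, under polynomial changes of the argument.
Words generated by iterating dgsm's of growth `O(n s(n))` are generated simultaneously in
polynomial time and space `O(s(n))`; every word generated simultaneously in polynomial time and
space `O(s(n))` is obtained by erasing as in (2) from the word of a dgsm with two states and growth
`O(n s(n))`. So for every `t ≥ 0` which is also invariant, the dgsm words of growth `O(n s(n))`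
(equivalently, those of the dgsm's with two states) are all in `GSPACE(t)` if and only if all words
generated simultaneously in polynomial time and space `O(s(n))` are.

**(4)** In particular, for every `j`, all words generated by iterating non-erasing dgsm's (with two
states) of growth `O(n (log n)^j)` are in `GSPACE(log n)` if and only if all infinite words
generated simultaneously in polynomial time and space `O((log n)^j)` are. -/
theorem result :
    (∀ (S : Type) [Finite S] (τ : Dgsm S) (a : S) (w : ℕ → S), τ.NonErasing → τ.IsLimit a w →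
      ∃ (M : Machine 3 S) (K : ℝ), M.Generates w ∧
        (∀ n : ℕ, 1 ≤ n → (M.T n : ℝ) ≤ K * (n : ℝ) ^ 2) ∧
        ∀ σ : ℕ → ℝ, Monotone σ →
          (∀ n : ℕ, 1 ≤ n → ((τ.map^[n] [a]).length : ℝ) ≤ n * σ n) →
          ∀ n : ℕ, 1 ≤ n → M.SpaceLE n (K * σ (2 * n))) ∧
    (∀ (S : Type) [Finite S] (k : ℕ) (M : Machine k S) (w : ℕ → S) (σ : ℕ → ℝ) (C : ℝ) (d : ℕ),
      M.Generates w → (∀ n, 0 ≤ σ n) →
      (∀ n : ℕ, 1 ≤ n → (M.T n : ℝ) ≤ C * (n : ℝ) ^ d ∧ M.SpaceLE n (σ n)) →
      ∃ (S' : Type) (_ : Finite S') (τ' : Dgsm S') (a' : S') (w' : ℕ → S') (h : S' → Option S)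
        (B e : ℕ), Nat.card τ'.Q = 2 ∧ τ'.NonErasing ∧ τ'.IsLimit a' w' ∧
        (∀ n : ℕ, ((τ'.map^[n] [a']).length : ℝ) ≤ 1 + n * (σ (n + 1) + 2)) ∧
        (∀ n, IsPre (((List.range n).map w').filterMap h) w) ∧
        ∀ n, 1 ≤ n → n ≤ (((List.range (B * n ^ e)).map w').filterMap h).length) ∧
    (∀ s : ℕ → ℝ, (∀ n, 1 ≤ s n) → PolyInv s →
      (∀ (S : Type) [Finite S] (τ : Dgsm S) (a : S) (w : ℕ → S), τ.NonErasing → τ.IsLimit a w →
        GrowthO s τ a → PolyTimeSpace s w) ∧
      (∀ (S : Type) [Finite S] (w : ℕ → S), PolyTimeSpace s w →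
        ∃ (S' : Type) (_ : Finite S') (τ' : Dgsm S') (a' : S') (w' : ℕ → S')
          (h : S' → Option S) (B e : ℕ), Nat.card τ'.Q = 2 ∧ τ'.NonErasing ∧
          τ'.IsLimit a' w' ∧ GrowthO s τ' a' ∧
          (∀ n, IsPre (((List.range n).map w').filterMap h) w) ∧
          ∀ n, 1 ≤ n → n ≤ (((List.range (B * n ^ e)).map w').filterMap h).length) ∧
      ∀ t : ℕ → ℝ, (∀ n, 0 ≤ t n) → PolyInv t →
        ((∀ (S : Type) [Finite S] (τ : Dgsm S) (a : S) (w : ℕ → S), τ.NonErasing →
            τ.IsLimit a w → GrowthO s τ a → InSpace t w) ↔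
          ∀ (S : Type) [Finite S] (w : ℕ → S), PolyTimeSpace s w → InSpace t w) ∧
        ((∀ (S : Type) [Finite S] (τ : Dgsm S) (a : S) (w : ℕ → S), τ.NonErasing →
            τ.IsLimit a w → Nat.card τ.Q = 2 → GrowthO s τ a → InSpace t w) ↔
          ∀ (S : Type) [Finite S] (w : ℕ → S), PolyTimeSpace s w → InSpace t w)) ∧
    (∀ j : ℕ,
      ((∀ (S : Type) [Finite S] (τ : Dgsm S) (a : S) (w : ℕ → S), τ.NonErasing →
          τ.IsLimit a w → GrowthO (fun n => (Real.log n + 1) ^ j) τ a →
          InSpace (fun n => Real.log n + 1) w) ↔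
        ∀ (S : Type) [Finite S] (w : ℕ → S), PolyTimeSpace (fun n => (Real.log n + 1) ^ j) w →
          InSpace (fun n => Real.log n + 1) w) ∧
      ((∀ (S : Type) [Finite S] (τ : Dgsm S) (a : S) (w : ℕ → S), τ.NonErasing →
          τ.IsLimit a w → Nat.card τ.Q = 2 → GrowthO (fun n => (Real.log n + 1) ^ j) τ a →
          InSpace (fun n => Real.log n + 1) w) ↔
        ∀ (S : Type) [Finite S] (w : ℕ → S), PolyTimeSpace (fun n => (Real.log n + 1) ^ j) w →
          InSpace (fun n => Real.log n + 1) w)) := by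
  have main : ∀ s : ℕ → ℝ, (∀ n, 1 ≤ s n) → PolyInv s →
      ∀ t : ℕ → ℝ, (∀ n, 0 ≤ t n) → PolyInv t →
        ((∀ (S : Type) [Finite S] (τ : Dgsm S) (a : S) (w : ℕ → S), τ.NonErasing →
            τ.IsLimit a w → GrowthO s τ a → InSpace t w) ↔
          ∀ (S : Type) [Finite S] (w : ℕ → S), PolyTimeSpace s w → InSpace t w) ∧
        ((∀ (S : Type) [Finite S] (τ : Dgsm S) (a : S) (w : ℕ → S), τ.NonErasing →
            τ.IsLimit a w → Nat.card τ.Q = 2 → GrowthO s τ a → InSpace t w) ↔
          ∀ (S : Type) [Finite S] (w : ℕ → S), PolyTimeSpace s w → InSpace t w) := by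
    intro s hs1 hs t ht0 ht
    have key : (∀ (S : Type) [Finite S] (τ : Dgsm S) (a : S) (w : ℕ → S), τ.NonErasing →
            τ.IsLimit a w → Nat.card τ.Q = 2 → GrowthO s τ a → InSpace t w) →
        ∀ (S : Type) [Finite S] (w : ℕ → S), PolyTimeSpace s w → InSpace t w := by
      intro H S _ w hw
      obtain ⟨S', hS', τ', a', w', h, B, e, h1, h2, h3, h4, h5⟩ := machine_to_growth hs1 hs hw
      exact inSpace_er h5 ht0 ht (H S' τ' a' w' h2 h3 h1 h4)
    refine ⟨⟨?_, ?_⟩, ⟨key, ?_⟩⟩
    · intro H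
      exact key fun S _ τ a w h1 h2 _ h3 => H S τ a w h1 h2 h3
    · intro H S _ τ a w h1 h2 h3
      exact H S w (growth_to_machine hs1 hs h1 h2 h3)
    · intro H S _ τ a w h1 h2 _ h3
      exact H S w (growth_to_machine hs1 hs h1 h2 h3)
  refine ⟨?_, ?_, ?_, ?_⟩
  · intro S _ τ a w hne hw
    obtain ⟨M, K, hK, hM, hT, hS⟩ := toMachine hne hw
    refine ⟨M, 2 * K, hM, ?_, ?_⟩
    · intro n hn
      refine (hT n hn).trans ?_
      apply mul_le_mul_of_nonneg_right _ (by positivity)
      linarith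
    · intro σ hσ hg n hn
      exact hS σ hg n hn _ (fun m _ hm => hσ hm)
  · intro S _ k M w σ C d hM hσ0 hC
    exact toDgsm hM hσ0 (fun n hn => (hC n hn).2) (fun n hn => (hC n hn).1)
  · intro s hs1 hs
    refine ⟨fun S _ τ a w h1 h2 h3 => growth_to_machine hs1 hs h1 h2 h3,
      fun S _ w hw => machine_to_growth hs1 hs hw, main s hs1 hs⟩
  · intro j
    have hlog : ∀ n : ℕ, (1 : ℝ) ≤ Real.log n + 1 := by
      intro n
      have : 0 ≤ Real.log n := by
        rcases Nat.eq_zero_or_pos n with rfl | hm0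
        · simp
        · exact Real.log_nonneg (by exact_mod_cast hm0)
      linarith
    exact main _ (fun n => one_le_pow₀ (hlog n)) (polylog_poly j) _ log_nonneg' (by
      intro B d
      obtain ⟨C, hC⟩ := polylog_poly 1 B d
      exact ⟨C, fun n m hn hm => by simpa using hC n m hn hm⟩)

end Pool.Agent.Results.MP_5d512e_lc.GrowthVersusSpace
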