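import Pool.Agent.TH754.DG.LG

/-!
The question whether all infinite words generated by iterating dgsm's are in `GSPACE(log n)` is
equivalent to its restriction to systems in which the rewriting of a letter depends on its left
neighbour only.
-/

set_option autoImplicit false

namespace Pool.Agent.Results.MP_5d512e_lc.LeftNeighbour

open Pool.Agent.H584R2.Dg Pool.Agent.W614.Dg Pool.Agent.TH754.DG

/-- **(1)** Every infinite word `w` generated by iterating a non-erasing dgsm `τ` is obtained by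
applying a partial letter map, erasing the letters where it is undefined, to the word `w'` generated
by iterating a non-erasing dgsm `τ'` whose next state is determined by the letter read
(`LeftNb`: the word by which a letter is replaced depends on the letter and its left neighbour
only, and, for the first letter, on the initial state; these are the deterministic 1L systems).
The first `n` letters of `w` come from the first `B n²` letters of `w'`. The growth of `τ'` is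
always at most quadratic, and if `|τ^n(a)| ≤ n σ(n)` for `n ≥ 1`, with `σ` nondecreasing, then
`|τ'^n(a')| ≤ 1 + n (2 σ(2 n + 1) + 1)`.

**(2)** So for every `s ≥ 1` with `s(m) = O(s(n))` for `m ≤ 3 n` and every `t ≥ 0` with
`t(m) = O(t(n))` for `m` polynomially bounded in `n`: all words generated by iterating dgsm's of
growth `O(n s(n))` are in `GSPACE(t)` if and only if those generated by iterating dgsm's with
`LeftNb` of growth `O(n s(n))` are.

**(3)** For every `ε > 0` and every such `t`: all words generated by iterating dgsm's are in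
`GSPACE(t)` if and only if those generated by iterating dgsm's with `LeftNb` of growth
`O(n ^ (1 + ε))` are.

**(4)** In particular this holds for `GSPACE(log n)`. -/
theorem result :
    (∀ (S : Type) [Finite S] (τ : Dgsm S) (a : S) (w : ℕ → S), τ.NonErasing → τ.IsLimit a w →
      ∃ (S' : Type) (_ : Finite S') (τ' : Dgsm S') (a' : S') (w' : ℕ → S') (h : S' → Option S)
        (B : ℕ), LeftNb τ' ∧ τ'.NonErasing ∧ τ'.IsLimit a' w' ∧
        (∃ A : ℝ, ∀ n : ℕ, 1 ≤ n → ((τ'.map^[n] [a']).length : ℝ) ≤ A * (n : ℝ) ^ 2) ∧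
        (∀ σ : ℕ → ℝ, Monotone σ →
          (∀ n : ℕ, 1 ≤ n → ((τ.map^[n] [a]).length : ℝ) ≤ n * σ n) →
          ∀ n : ℕ, ((τ'.map^[n] [a']).length : ℝ) ≤ 1 + n * (2 * σ (2 * n + 1) + 1)) ∧
        (∀ n, IsPre (((List.range n).map w').filterMap h) w) ∧
        ∀ n, 1 ≤ n → n ≤ (((List.range (B * n ^ 2)).map w').filterMap h).length) ∧
    (∀ s : ℕ → ℝ, (∀ n, 1 ≤ s n) →
      (∃ C : ℝ, ∀ n m : ℕ, 1 ≤ n → m ≤ 3 * n → s m ≤ C * s n) →
      ∀ t : ℕ → ℝ, (∀ n, 0 ≤ t n) →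
      (∀ B d : ℕ, ∃ C : ℝ, ∀ n m : ℕ, 1 ≤ n → m ≤ B * n ^ d → t m ≤ C * t n) →
      ((∀ (S : Type) [Finite S] (τ : Dgsm S) (a : S) (w : ℕ → S), τ.NonErasing →
          τ.IsLimit a w →
          (∃ A : ℝ, ∀ n : ℕ, 1 ≤ n → ((τ.map^[n] [a]).length : ℝ) ≤ A * (n * s n)) →
          InSpace t w) ↔
        ∀ (S : Type) [Finite S] (τ : Dgsm S) (a : S) (w : ℕ → S), τ.NonErasing →
          τ.IsLimit a w → LeftNb τ →
          (∃ A : ℝ, ∀ n : ℕ, 1 ≤ n → ((τ.map^[n] [a]).length : ℝ) ≤ A * (n * s n)) →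
          InSpace t w)) ∧
    (∀ ε : ℝ, 0 < ε → ∀ t : ℕ → ℝ, (∀ n, 0 ≤ t n) →
      (∀ B d : ℕ, ∃ C : ℝ, ∀ n m : ℕ, 1 ≤ n → m ≤ B * n ^ d → t m ≤ C * t n) →
      ((∀ (S : Type) [Finite S] (τ : Dgsm S) (a : S) (w : ℕ → S), τ.NonErasing →
          τ.IsLimit a w → InSpace t w) ↔
        ∀ (S : Type) [Finite S] (τ : Dgsm S) (a : S) (w : ℕ → S), τ.NonErasing →
          τ.IsLimit a w → LeftNb τ →
          (∃ A : ℝ, ∀ n : ℕ, 1 ≤ n →
            ((τ.map^[n] [a]).length : ℝ) ≤ A * (n : ℝ) ^ (1 + ε)) → InSpace t w)) ∧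
    (∀ ε : ℝ, 0 < ε →
      ((∀ (S : Type) [Finite S] (τ : Dgsm S) (a : S) (w : ℕ → S), τ.NonErasing →
          τ.IsLimit a w → InSpace (fun n => Real.log n + 1) w) ↔
        ∀ (S : Type) [Finite S] (τ : Dgsm S) (a : S) (w : ℕ → S), τ.NonErasing →
          τ.IsLimit a w → LeftNb τ →
          (∃ A : ℝ, ∀ n : ℕ, 1 ≤ n →
            ((τ.map^[n] [a]).length : ℝ) ≤ A * (n : ℝ) ^ (1 + ε)) →
          InSpace (fun n => Real.log n + 1) w)) := by
  have h2 : ∀ s : ℕ → ℝ, (∀ n, 1 ≤ s n) →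
      (∃ C : ℝ, ∀ n m : ℕ, 1 ≤ n → m ≤ 3 * n → s m ≤ C * s n) →
      ∀ (S : Type) [Finite S] (τ : Dgsm S) (a : S) (w : ℕ → S), τ.NonErasing → τ.IsLimit a w →
      (∃ A : ℝ, ∀ n : ℕ, 1 ≤ n → ((τ.map^[n] [a]).length : ℝ) ≤ A * (n * s n)) →
      ∃ (S' : Type) (_ : Finite S') (τ' : Dgsm S') (a' : S') (w' : ℕ → S') (h : S' → Option S)
        (B : ℕ), LeftNb τ' ∧ τ'.NonErasing ∧ τ'.IsLimit a' w' ∧
        (∃ A : ℝ, ∀ n : ℕ, 1 ≤ n → ((τ'.map^[n] [a']).length : ℝ) ≤ A * (n * s n)) ∧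
        Er h w' w B 2 := by
    intro s hs1 ⟨C, hC⟩ S _ τ a w hne hw ⟨A, hA⟩
    obtain ⟨S', hS', τ', a', w', h, B, k1, k2, k3, -, k5, k6⟩ := toLn' τ hne a w hw
    refine ⟨S', hS', τ', a', w', h, B, k1, k2, k3, ⟨2 + 2 * (|A| * |C|), ?_⟩, k6⟩
    intro n hn
    have k7 := k5 (fun m => A * s m) (by
      intro m hm
      calc ((τ.map^[m] [a]).length : ℝ) ≤ A * (m * s m) := hA m hm
        _ = m * (A * s m) := by ring) n (|A| * (|C| * s n)) (by
      intro m hm hm2
      have e3 := hC n m hn (by omega)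
      have e4 := hs1 n
      have e5 := hs1 m
      calc A * s m ≤ |A| * s m := mul_le_mul_of_nonneg_right (le_abs_self A) (by linarith)
        _ ≤ |A| * (|C| * s n) := by
          apply mul_le_mul_of_nonneg_left _ (abs_nonneg A)
          exact e3.trans (mul_le_mul_of_nonneg_right (le_abs_self C) (by linarith)))
    have hn' : (1 : ℝ) ≤ n := by exact_mod_cast hn
    have e4 := hs1 n
    have e6 : (n : ℝ) ≤ n * s n := by nlinarith
    calc ((τ'.map^[n] [a']).length : ℝ) ≤ 1 + n * (2 * (|A| * (|C| * s n)) + 1) := k7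
      _ = 1 + n + 2 * (|A| * |C|) * (n * s n) := by ring
      _ ≤ 2 * (n * s n) + 2 * (|A| * |C|) * (n * s n) := by linarith
      _ = _ := by ring
  have h3 : ∀ ε : ℝ, 0 < ε → ∀ t : ℕ → ℝ, (∀ n, 0 ≤ t n) →
      (∀ B d : ℕ, ∃ C : ℝ, ∀ n m : ℕ, 1 ≤ n → m ≤ B * n ^ d → t m ≤ C * t n) →
      ((∀ (S : Type) [Finite S] (τ : Dgsm S) (a : S) (w : ℕ → S), τ.NonErasing →
          τ.IsLimit a w → InSpace t w) ↔
        ∀ (S : Type) [Finite S] (τ : Dgsm S) (a : S) (w : ℕ → S), τ.NonErasing →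
          τ.IsLimit a w → LeftNb τ →
          (∃ A : ℝ, ∀ n : ℕ, 1 ≤ n →
            ((τ.map^[n] [a]).length : ℝ) ≤ A * (n : ℝ) ^ (1 + ε)) → InSpace t w) := by
    intro ε hε t ht0 ht
    constructor
    · intro H S _ τ a w k1 k2 _ _
      exact H S τ a w k1 k2
    · intro H S _ τ a w k1 k2
      obtain ⟨S1, hS1, τ1, a1, w1, h1, P, B, d, hc, hne1, hw1, ⟨A, hA⟩, hd, hB⟩ :=
        reduction hε τ k1 a w k2
      refine inSpace_dec hd hB ht0 ht ?_
      have e0 : ∀ n : ℕ, 1 ≤ n → (n : ℝ) ^ (1 + ε) = n * (n : ℝ) ^ ε := by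
        intro n hn
        have hn' : (0 : ℝ) < n := by exact_mod_cast hn
        rw [Real.rpow_add hn', Real.rpow_one]
      obtain ⟨s, hs⟩ : ∃ s : ℕ → ℝ, s = fun n => (((max n 1 : ℕ) : ℝ)) ^ ε := ⟨_, rfl⟩
      have hsn : ∀ n : ℕ, 1 ≤ n → s n = (n : ℝ) ^ ε := by
        intro n hn
        rw [hs]
        simp only
        rw [max_eq_left hn]
      have hs1 : ∀ n, 1 ≤ s n := by
        intro n
        rw [hs]
        apply Real.one_le_rpow _ hε.le
        exact_mod_cast le_max_right n 1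
      have hs3 : ∃ C : ℝ, ∀ n m : ℕ, 1 ≤ n → m ≤ 3 * n → s m ≤ C * s n := by
        refine ⟨3 ^ ε, ?_⟩
        intro n m hn hm
        rw [hsn n hn, ← Real.mul_rpow (by norm_num) (Nat.cast_nonneg n), hs]
        apply Real.rpow_le_rpow (Nat.cast_nonneg _) _ hε.le
        have : max m 1 ≤ 3 * n := by omega
        exact_mod_cast this
      obtain ⟨S', hS', τ', a', w', h, B', k1', k2', k3', ⟨A', hA'⟩, k6⟩ :=
        h2 s hs1 hs3 S1 τ1 a1 w1 hne1 hw1 ⟨A, by
          intro n hn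
          rw [hsn n hn, ← e0 n hn]
          exact hA n hn⟩
      refine inSpace_er k6 ht0 ht (H S' τ' a' w' k2' k3' k1' ⟨A', ?_⟩)
      intro n hn
      have := hA' n hn
      rw [hsn n hn, ← e0 n hn] at this
      exact this
  refine ⟨?_, ?_, h3, ?_⟩
  · intro S _ τ a w hne hw
    obtain ⟨S', hS', τ', a', w', h, B, k1, k2, k3, k4, k5, k6⟩ := toLn' τ hne a w hw
    refine ⟨S', hS', τ', a', w', h, B, k1, k2, k3, k4, ?_, k6.1, k6.2⟩
    intro σ hσ hg n
    exact k5 σ hg n _ (fun m _ hm => hσ hm)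
  · intro s hs1 hs3 t ht0 ht
    constructor
    · intro H S _ τ a w k1 k2 _ k4
      exact H S τ a w k1 k2 k4
    · intro H S _ τ a w k1 k2 k3
      obtain ⟨S', hS', τ', a', w', h, B', k1', k2', k3', k4', k6⟩ :=
        h2 s hs1 hs3 S τ a w k1 k2 k3
      exact inSpace_er k6 ht0 ht (H S' τ' a' w' k2' k3' k1' k4')
  · intro ε hε
    exact h3 ε hε _ log_nonneg' (by
      intro B d
      obtain ⟨C, -, hC⟩ := log_poly B d
      exact ⟨C, hC⟩)

end Pool.Agent.Results.MP_5d512e_lc.LeftNeighbour
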