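import Pool.Agent.TH381.Dg.Grow

/-!
Every polynomial growth is as hard as the whole question whether all infinite words generated by
iterating dgsm's are in `GSPACE(log n)`.
-/

namespace Pool.Agent.Results.MP_5d512e_lc.PolynomialGrowthsComplete

open Pool.Agent.H584R2.Dg Pool.Agent.W614.Dg Pool.Agent.TH381.Dg

/-- Write `g(n) = |σ^n(b)|` for the growth of an iteration of a non-erasing dgsm `σ` from a letter
`b` over a finite alphabet.

1. Let `g(n) ≥ c n ^ (1 + ε)` for some `ε, c > 0` (no upper bound on `g` is assumed). Every infinite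
   word `w` generated by iterating a non-erasing dgsm `τ` is obtained by applying a partial letter
   map `h`, erasing the letters where it is undefined, to an infinite word `w'` generated by
   iterating a non-erasing dgsm `τ'` with twice as many states as `σ` and with growth
   `g(n) ≤ |τ'^n(a')| ≤ A g(n)` for all `n`. The `k`-th remaining letter has its position `P k` below
   `A g(B (k + 1) ^ d)`, and for every nondecreasing `s ≥ 0`, if `w'` is in `GSPACE(s(n))`, then `w`
   is in `GSPACE(s(A g(B n ^ d)))`.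
2. If `g` is moreover polynomially bounded, then for every `s ≥ 0` with `s(m) = O(s(n))` for `m`
   polynomially bounded in `n`: all infinite words generated by iterating non-erasing dgsm's are in
   `GSPACE(s)` if and only if this holds for those generated by dgsm's with twice as many states as
   `σ` and growth between `g(n)` and `A g(n)`, for a constant `A`.
3. For every integer `d ≥ 2` and every such `s`: all infinite words generated by iterating
   non-erasing dgsm's are in `GSPACE(s)` if and only if this holds for the dgsm's with exactly two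
   states and growth of order exactly `n ^ d`.
4. The functions `s(n) = (log n + 1) ^ j` have this property, for every `j`.
5. In particular (`j = 1`), for every integer `d ≥ 2`: all infinite words generated by iterating
   non-erasing dgsm's are in `GSPACE(log n)` if and only if this holds for the dgsm's with exactly
   two states and growth of order exactly `n ^ d`. -/
theorem result :
    (∀ (T : Type) [Finite T] (σ : Dgsm T) (b : T) (v : ℕ → T), σ.NonErasing → σ.IsLimit b v →
      ∀ ε c : ℝ, 0 < ε → 0 < c →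
      (∀ n : ℕ, 1 ≤ n → c * (n : ℝ) ^ (1 + ε) ≤ ((σ.map^[n] [b]).length : ℝ)) →
      ∀ (S : Type) [Finite S] (τ : Dgsm S) (a : S) (w : ℕ → S), τ.NonErasing → τ.IsLimit a w →
        ∃ (S' : Type) (_ : Finite S') (τ' : Dgsm S') (a' : S') (w' : ℕ → S') (h : S' → Option S)
          (P : ℕ → ℕ) (A B d : ℕ), Nat.card τ'.Q = 2 * Nat.card σ.Q ∧ τ'.NonErasing ∧
          τ'.IsLimit a' w' ∧
          (∀ n, (σ.map^[n] [b]).length ≤ (τ'.map^[n] [a']).length ∧
            (τ'.map^[n] [a']).length ≤ A * (σ.map^[n] [b]).length) ∧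
          StrictMono P ∧ P 0 = 0 ∧ (∀ k, h (w' (P k)) = some (w k)) ∧
          (∀ k r, P k < r → r < P (k + 1) → h (w' r) = none) ∧
          (∀ k, P k + 1 ≤ A * (σ.map^[B * (k + 1) ^ d] [b]).length) ∧
          ∀ s : ℕ → ℝ, (∀ n, 0 ≤ s n) → Monotone s → InSpace s w' →
            InSpace (fun n => s (A * (σ.map^[B * n ^ d] [b]).length)) w) ∧
    (∀ (T : Type) [Finite T] (σ : Dgsm T) (b : T) (v : ℕ → T), σ.NonErasing → σ.IsLimit b v →
      ∀ ε c : ℝ, 0 < ε → 0 < c →
      (∀ n : ℕ, 1 ≤ n → c * (n : ℝ) ^ (1 + ε) ≤ ((σ.map^[n] [b]).length : ℝ)) →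
      ∀ A₀ D : ℕ, (∀ n : ℕ, 1 ≤ n → (σ.map^[n] [b]).length ≤ A₀ * n ^ D) →
      ∀ s : ℕ → ℝ, (∀ n, 0 ≤ s n) →
      (∀ B d : ℕ, ∃ C : ℝ, ∀ n m : ℕ, 1 ≤ n → m ≤ B * n ^ d → s m ≤ C * s n) →
      ((∀ (S : Type) [Finite S] (τ : Dgsm S) (a : S) (w : ℕ → S), τ.NonErasing →
          τ.IsLimit a w → InSpace s w) ↔
        ∀ (S : Type) [Finite S] (τ : Dgsm S) (a : S) (w : ℕ → S), τ.NonErasing →
          τ.IsLimit a w → Nat.card τ.Q = 2 * Nat.card σ.Q →
          (∃ A : ℕ, ∀ n : ℕ, (σ.map^[n] [b]).length ≤ (τ.map^[n] [a]).length ∧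
            (τ.map^[n] [a]).length ≤ A * (σ.map^[n] [b]).length) → InSpace s w)) ∧
    (∀ d : ℕ, 2 ≤ d → ∀ s : ℕ → ℝ, (∀ n, 0 ≤ s n) →
      (∀ B d : ℕ, ∃ C : ℝ, ∀ n m : ℕ, 1 ≤ n → m ≤ B * n ^ d → s m ≤ C * s n) →
      ((∀ (S : Type) [Finite S] (τ : Dgsm S) (a : S) (w : ℕ → S), τ.NonErasing →
          τ.IsLimit a w → InSpace s w) ↔
        ∀ (S : Type) [Finite S] (τ : Dgsm S) (a : S) (w : ℕ → S), τ.NonErasing →
          τ.IsLimit a w → Nat.card τ.Q = 2 →
          (∃ c C : ℝ, 0 < c ∧ ∀ n : ℕ, 1 ≤ n →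
            c * (n : ℝ) ^ d ≤ ((τ.map^[n] [a]).length : ℝ) ∧
            ((τ.map^[n] [a]).length : ℝ) ≤ C * (n : ℝ) ^ d) → InSpace s w)) ∧
    (∀ j B d : ℕ, ∃ C : ℝ, ∀ n m : ℕ, 1 ≤ n → m ≤ B * n ^ d →
      (Real.log m + 1) ^ j ≤ C * (Real.log n + 1) ^ j) ∧
    (∀ d : ℕ, 2 ≤ d →
      ((∀ (S : Type) [Finite S] (τ : Dgsm S) (a : S) (w : ℕ → S), τ.NonErasing →
          τ.IsLimit a w → InSpace (fun n => Real.log n + 1) w) ↔
        ∀ (S : Type) [Finite S] (τ : Dgsm S) (a : S) (w : ℕ → S), τ.NonErasing →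
          τ.IsLimit a w → Nat.card τ.Q = 2 →
          (∃ c C : ℝ, 0 < c ∧ ∀ n : ℕ, 1 ≤ n →
            c * (n : ℝ) ^ d ≤ ((τ.map^[n] [a]).length : ℝ) ∧
            ((τ.map^[n] [a]).length : ℝ) ≤ C * (n : ℝ) ^ d) →
          InSpace (fun n => Real.log n + 1) w)) := by
  have h3 : ∀ d : ℕ, 2 ≤ d → ∀ s : ℕ → ℝ, (∀ n, 0 ≤ s n) →
      (∀ B d : ℕ, ∃ C : ℝ, ∀ n m : ℕ, 1 ≤ n → m ≤ B * n ^ d → s m ≤ C * s n) →
      ((∀ (S : Type) [Finite S] (τ : Dgsm S) (a : S) (w : ℕ → S), τ.NonErasing →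
          τ.IsLimit a w → InSpace s w) ↔
        ∀ (S : Type) [Finite S] (τ : Dgsm S) (a : S) (w : ℕ → S), τ.NonErasing →
          τ.IsLimit a w → Nat.card τ.Q = 2 →
          (∃ c C : ℝ, 0 < c ∧ ∀ n : ℕ, 1 ≤ n →
            c * (n : ℝ) ^ d ≤ ((τ.map^[n] [a]).length : ℝ) ∧
            ((τ.map^[n] [a]).length : ℝ) ≤ C * (n : ℝ) ^ d) → InSpace s w) := by
    intro d hd s hs0 hs
    constructor
    · intro H S _ τ a w h1 h2 _ _
      exact H S τ a w h1 h2
    · intro H
      have hne : (dk d).NonErasing := by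
        intro q x
        show (if (x : ℕ) = 0 then _ else _) ≠ []
        split_ifs <;> simp
      have hout : (dk d).out (dk d).init ⟨d, by omega⟩ =
          ⟨d, by omega⟩ :: [⟨d - 1, by omega⟩] := by
        show (if d = 0 then _ else _) = _
        rw [if_neg (by omega)]
      obtain ⟨v, hv⟩ := exists_limit hne hout (by simp)
      obtain ⟨c, hc, hlow⟩ := dk_lower d
      have hup : ∀ n, ((dk d).map^[n] [⟨d, by omega⟩]).length ≤ (n + 1) ^ d :=
        fun n => (dk_bounds d n d (by omega)).2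
      have hpow : ∀ n : ℕ, 1 ≤ n → ((n : ℕ) + 1) ^ d ≤ 2 ^ d * n ^ d := by
        intro n hn
        rw [← mul_pow]
        exact Nat.pow_le_pow_left (by omega) d
      have heq := (equiv_growth (σ := dk d) hne hv (ε := 1) (c := c) one_pos hc (by
        intro n hn
        refine le_trans ?_ (hlow n)
        apply mul_le_mul_of_nonneg_left _ hc.le
        rw [← Real.rpow_natCast (n : ℝ) d]
        apply Real.rpow_le_rpow_of_exponent_le (by exact_mod_cast hn)
        have : (2 : ℝ) ≤ d := by exact_mod_cast hd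
        linarith) (A0 := 2 ^ d) (D := d) (fun n hn => (hup n).trans (hpow n hn)) hs0 hs).2
      apply heq
      intro S _ τ a w h1 h2 hcard ⟨A, hA⟩
      apply H S τ a w h1 h2
      · rw [hcard]
        show 2 * Nat.card Unit = 2
        simp
      · refine ⟨c, A * 2 ^ d, hc, ?_⟩
        intro n hn
        obtain ⟨hA1, hA2⟩ := hA n
        constructor
        · exact (hlow n).trans (by exact_mod_cast hA1)
        · have h5 : (τ.map^[n] [a]).length ≤ A * 2 ^ d * n ^ d := by
            rw [mul_assoc]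
            exact hA2.trans (Nat.mul_le_mul_left _ ((hup n).trans (hpow n hn)))
          exact_mod_cast h5
  refine ⟨?_, ?_, h3, polylog_poly, ?_⟩
  · intro T _ σ b v hσ hv ε c hε hc hg S _ τ a w hτ hw
    obtain ⟨S', hS', τ', a', w', h, P, A, B, d, hQ, hne, hlim, hgr, hdec, hP⟩ :=
      core hσ hv hε hc hg τ a w hτ hw
    exact ⟨S', hS', τ', a', w', h, P, A, B, d, hQ, hne, hlim, hgr, hdec.mono, hdec.zero, hdec.some,
      hdec.none, hP, fun s hs0 hs hw' => transfer_space
        (G := fun n => A * (σ.map^[B * n ^ d] [b]).length) hdec hP hs0 hs hw'⟩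
  · intro T _ σ b v hσ hv ε c hε hc hg A0 D hg2 s hs0 hs
    exact equiv_growth hσ hv hε hc hg hg2 hs0 hs
  · intro d hd
    exact h3 d hd _ log_nonneg' (by
      intro B d
      obtain ⟨C, -, hC⟩ := log_poly B d
      exact ⟨C, hC⟩)

end Pool.Agent.Results.MP_5d512e_lc.PolynomialGrowthsComplete
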