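import Pool.Agent.TH381.RM4.Conv
import Pool.Agent.TH284.RM4.Fin
import Pool.Agent.TH329.RM4.Conv
import Pool.Agent.W614.Dg.Trans

/-!
The words generated by iterating dgsm's in space `O(n ^ (1 / 3) log n)`, and in space
`O(n ^ (1 / 4) log n)` for growth of order `n ^ 2`: the start states of the rows are the only
obstruction. A class of dgsm's without this obstruction which is as hard as all dgsm's for the
question whether the words are in `GSPACE(log n)`.
-/

set_option autoImplicit false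

namespace Pool.Agent.Results.MP_5d512e_lc.RowMarkerSpace

open Pool.Agent.H584R2.Dg Pool.Agent.W614.Dg Pool.Agent.TH381.RM

/-- `s(m) = O(s(n))` for `m` polynomially bounded in `n`. The functions `(log n + 1) ^ j` have this
property. -/
def PolyInv (s : ℕ → ℝ) : Prop :=
  ∀ B d : ℕ, ∃ C : ℝ, ∀ n m : ℕ, 1 ≤ n → m ≤ B * n ^ d → s m ≤ C * s n

/-- The row `l`: `τ^(l + 1)(a) = τ^l(a) row`. -/
def row {S : Type} (τ : Dgsm S) (a : S) (l : ℕ) : List S :=
  (τ.map^[l + 1] [a]).drop (τ.map^[l] [a]).length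

/-- The state of `τ` after reading `τ^l(a)`, in which it begins to read the row `l`. -/
def start {S : Type} (τ : Dgsm S) (a : S) (l : ℕ) : τ.Q := stAfter τ τ.init (τ.map^[l] [a])

/-- Reading the row `l` starting in the state `s l` produces the row `l + 1`, for all `l`. The
sequence `start τ a` has this property. -/
def Drives {S : Type} (τ : Dgsm S) (a : S) (s : ℕ → τ.Q) : Prop :=
  ∀ l, τ.run (s l) (row τ a l) = row τ a (l + 1)

/-- `N ^ (1 / 3) (log N + 1)` for `N = |τ^(n - 1)(a)|`. -/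
noncomputable def rowSpace {S : Type} (τ : Dgsm S) (a : S) (n : ℕ) : ℝ :=
  ((τ.map^[n - 1] [a]).length : ℝ) ^ (1 / 3 : ℝ) *
    (Real.log ((τ.map^[n - 1] [a]).length : ℝ) + 1)

/-- Growth of order `n ^ 2`: `n ^ 2 / A ≤ |τ^n(a)| ≤ A (n + 1) ^ 2` for some `A`. -/
def QuadGrowth {S : Type} (τ : Dgsm S) (a : S) : Prop :=
  ∃ A : ℝ, ∀ n : ℕ, (n : ℝ) ^ 2 ≤ A * (τ.map^[n] [a]).length ∧
    ((τ.map^[n] [a]).length : ℝ) ≤ A * ((n : ℝ) + 1) ^ 2

/-- `τ` is a row marker dgsm with growth of order `n ^ 2`: there is a letter `h` such that `τ(a)`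
begins with `a h`, and when `τ` reads `h`, the next state and the emitted word do not depend on the
state, and the emitted word begins with `h`. -/
def QuadRow {S : Type} (τ : Dgsm S) (a : S) : Prop :=
  (∃ h : S, RowMarker τ a h) ∧ QuadGrowth τ a

/-- Eventually periodic sequences. -/
def EvPer {Q : Type} (s : ℕ → Q) : Prop := ∃ p k : ℕ, 1 ≤ k ∧ ∀ l, p ≤ l → s (l + k) = s l

/-- **(1)** The word generated by iterating a non-erasing dgsm `τ` is in
`GSPACE(n ^ (1 / 3) log n)` if and only if the sequence of the states in which `τ` begins to read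
the rows is generated in space `O(N ^ (1 / 3) log N)`, where `N = |τ^l(a)|` for the row `l`. It is
in `GSPACE(n ^ (1 / 3) log n)` also if any sequence of states which drives the iteration is
generated in that space.

**(2)** If the growth is of order `n ^ 2`, then the word is in `GSPACE(n ^ (1 / 4) log n)` if and
only if the sequence of the states in which `τ` begins to read the rows is in
`GSPACE(n ^ (1 / 2) log n)`; it suffices that some sequence of states which drives the iteration
is.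

**(3)** In particular, if the rows are driven by an eventually periodic sequence of states, then
the word is in `GSPACE(n ^ (1 / 3) log n)`, and in `GSPACE(n ^ (1 / 4) log n)` if the growth is of
order `n ^ 2`. Row marker dgsm's are driven by a constant sequence.

**(4)** Every word `w` generated by iterating a non-erasing dgsm is obtained, by applying a
partial letter map and erasing the letters where it is undefined, from the word `w'` of a
non-erasing row marker dgsm with growth of order `n ^ 2`; the `k`-th letter of `w` comes from a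
position less than `B (k + 1) ^ 2`. So for every `s ≥ 0` which is invariant, up to constant factors,
under polynomial changes of the argument, in particular for `s = log n`, all words generated by
iterating non-erasing dgsm's are in `GSPACE(s)` if and only if those of the row marker dgsm's with
growth of order `n ^ 2` are. -/
theorem result :
    (∀ (S : Type) [Finite S] (τ : Dgsm S) (a : S) (w : ℕ → S), τ.NonErasing → τ.IsLimit a w →
      (InSpace (fun n => (n : ℝ) ^ (1 / 3 : ℝ) * (Real.log n + 1)) w ↔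
        InSpace (rowSpace τ a) (start τ a)) ∧
      ∀ s : ℕ → τ.Q, Drives τ a s → InSpace (rowSpace τ a) s →
        InSpace (fun n => (n : ℝ) ^ (1 / 3 : ℝ) * (Real.log n + 1)) w) ∧
    (∀ (S : Type) [Finite S] (τ : Dgsm S) (a : S) (w : ℕ → S), τ.NonErasing → τ.IsLimit a w →
      QuadGrowth τ a →
      (InSpace (fun n => (n : ℝ) ^ (1 / 4 : ℝ) * (Real.log n + 1)) w ↔
        InSpace (fun n => √(n : ℝ) * (Real.log n + 1)) (start τ a)) ∧
      ∀ s : ℕ → τ.Q, Drives τ a s → InSpace (fun n => √(n : ℝ) * (Real.log n + 1)) s →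
        InSpace (fun n => (n : ℝ) ^ (1 / 4 : ℝ) * (Real.log n + 1)) w) ∧
    (∀ (S : Type) [Finite S] (τ : Dgsm S) (a : S) (w : ℕ → S), τ.NonErasing → τ.IsLimit a w →
      (∃ s : ℕ → τ.Q, Drives τ a s ∧ EvPer s) →
      InSpace (fun n => (n : ℝ) ^ (1 / 3 : ℝ) * (Real.log n + 1)) w ∧
      (QuadGrowth τ a → InSpace (fun n => (n : ℝ) ^ (1 / 4 : ℝ) * (Real.log n + 1)) w)) ∧
    (∀ (S : Type) (τ : Dgsm S) (a h : S), RowMarker τ a h → Drives τ a (fun _ => τ.init)) ∧
    (∀ (S : Type) [Finite S] (τ : Dgsm S) (a : S) (w : ℕ → S), τ.NonErasing → τ.IsLimit a w →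
      ∃ (S' : Type) (_ : Finite S') (τ' : Dgsm S') (a' : S') (w' : ℕ → S') (g : S' → Option S)
        (P : ℕ → ℕ) (B : ℕ), τ'.NonErasing ∧ τ'.IsLimit a' w' ∧ QuadRow τ' a' ∧
        StrictMono P ∧ P 0 = 0 ∧ (∀ k, g (w' (P k)) = some (w k)) ∧
        (∀ k r, P k < r → r < P (k + 1) → g (w' r) = none) ∧ ∀ k, P k < B * (k + 1) ^ 2) ∧
    (∀ s : ℕ → ℝ, (∀ n, 0 ≤ s n) → PolyInv s →
      ((∀ (S : Type) [Finite S] (τ : Dgsm S) (a : S) (w : ℕ → S), τ.NonErasing →
          τ.IsLimit a w → InSpace s w) ↔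
        ∀ (S : Type) [Finite S] (τ : Dgsm S) (a : S) (w : ℕ → S), τ.NonErasing →
          τ.IsLimit a w → QuadRow τ a → InSpace s w)) ∧
    ((∀ (S : Type) [Finite S] (τ : Dgsm S) (a : S) (w : ℕ → S), τ.NonErasing →
        τ.IsLimit a w → InSpace (fun n => Real.log n + 1) w) ↔
      ∀ (S : Type) [Finite S] (τ : Dgsm S) (a : S) (w : ℕ → S), τ.NonErasing →
        τ.IsLimit a w → QuadRow τ a → InSpace (fun n => Real.log n + 1) w) := by
  have h1 : ∀ (S : Type) [Finite S] (τ : Dgsm S) (a : S) (w : ℕ → S), τ.NonErasing →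
      τ.IsLimit a w →
      ∃ (S' : Type) (_ : Finite S') (τ' : Dgsm S') (a' : S') (w' : ℕ → S') (g : S' → Option S)
        (P : ℕ → ℕ) (B : ℕ), τ'.NonErasing ∧ τ'.IsLimit a' w' ∧ QuadRow τ' a' ∧
        Dec g w' w P ∧ ∀ k, P k < B * (k + 1) ^ 2 := by
    intro S _ τ a w hne hw
    obtain ⟨S', hS', τ', a', m, w', g, P, A, B, h1, h2, h3, h4, h5, h6⟩ :=
      TH147.RM.comp S τ a w hne hw
    refine ⟨S', hS', τ', a', w', g, P, B, h1, h2, ⟨⟨m, h3⟩, (A : ℝ) + 2, ?_⟩, h5,
      fun k => h6 k⟩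
    intro n
    obtain ⟨h7, h8⟩ := h4 n
    have h7' : ((n : ℝ)) ^ 2 ≤ 2 * ((τ'.map^[n] [a']).length : ℝ) := by exact_mod_cast h7
    have h8' : ((τ'.map^[n] [a']).length : ℝ) ≤ A * ((n : ℝ) + 1) ^ 2 := by exact_mod_cast h8
    have hA : (0 : ℝ) ≤ A := Nat.cast_nonneg A
    constructor
    · refine h7'.trans ?_
      apply mul_le_mul_of_nonneg_right _ (Nat.cast_nonneg _)
      linarith
    · refine h8'.trans ?_
      apply mul_le_mul_of_nonneg_right _ (by positivity)
      linarith
  have h2 : ∀ s : ℕ → ℝ, (∀ n, 0 ≤ s n) → PolyInv s →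
      ((∀ (S : Type) [Finite S] (τ : Dgsm S) (a : S) (w : ℕ → S), τ.NonErasing →
          τ.IsLimit a w → InSpace s w) ↔
        ∀ (S : Type) [Finite S] (τ : Dgsm S) (a : S) (w : ℕ → S), τ.NonErasing →
          τ.IsLimit a w → QuadRow τ a → InSpace s w) := by
    intro s hs0 hs
    refine ⟨fun H S _ τ a w hne hw _ => H S τ a w hne hw, ?_⟩
    intro H S _ τ a w hne hw
    obtain ⟨S', hS', τ', a', w', g, P, B, g1, g2, g3, g4, g5⟩ := h1 S τ a w hne hw
    exact inSpace_dec g4 (B := B) (d := 2) (fun k => g5 k) hs0 hs (H S' τ' a' w' g1 g2 g3)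
  refine ⟨?_, ?_, ?_, ?_, ?_, h2, ?_⟩
  · intro S _ τ a w hne hw
    exact ⟨TH381.RM3.space_iff τ a w hne hw,
      fun s hs hsp => TH381.RM3.drives_space τ a w hne hw s hs hsp⟩
  · intro S _ τ a w hne hw hg
    exact ⟨TH381.RM4.space_iff4 TH284.RM4.fin4 TH440.RM3.mach TH329.RM4.conv4 τ a w hne hw hg,
      fun s hs hsp => TH381.RM4.drives_space4 TH284.RM4.fin4 TH440.RM3.mach τ a w hne hw hg s hs
        hsp⟩
  · rintro S _ τ a w hne hw ⟨s, hs, p, k, hk, hper⟩
    refine ⟨TH381.RM3.per_space τ a w hne hw s hs p k hk hper, ?_⟩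
    intro hg
    have := τ.finQ
    refine TH381.RM4.drives_space4 TH284.RM4.fin4 TH440.RM3.mach τ a w hne hw hg s hs ?_
    refine TH381.RM3.inSpace_per s p k hk hper _ ?_
    intro n hn
    have h3 : (1 : ℝ) ≤ n := by exact_mod_cast hn
    have h4 : (1 : ℝ) ≤ √(n : ℝ) := by rw [Real.one_le_sqrt]; exact h3
    have h5 : 0 ≤ Real.log n := Real.log_nonneg h3
    nlinarith
  · intro S τ a h hr
    exact TH381.RM3.drives_marker hr
  · intro S _ τ a w hne hw
    obtain ⟨S', hS', τ', a', w', g, P, B, g1, g2, g3, g4, g5⟩ := h1 S τ a w hne hw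
    exact ⟨S', hS', τ', a', w', g, P, B, g1, g2, g3, g4.mono, g4.zero, g4.some, g4.none, g5⟩
  · apply h2 _ log_nonneg'
    intro B d
    obtain ⟨C, hC⟩ := polylog_poly 1 B d
    exact ⟨C, fun n m hn hm => by simpa using hC n m hn hm⟩

end Pool.Agent.Results.MP_5d512e_lc.RowMarkerSpace
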